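import Pool.Agent.H2.CM5

open Pool.Agent.H2.Pdim Pool.Agent.H2.CM

namespace Pool.Agent.Results.MP_7f7c16_ag.TopNotComb

theorem result (K : Type) [Field K] [CharZero K] :
    ∃ a b : Fin 15 → Fin 4 → K, IsArr a ∧ IsArr b ∧ Nonempty (lattice a ≃o lattice b) ∧
      IsCM (topPart (jac a)) ∧ ¬ IsCM (topPart (jac b)) :=
  ⟨_, _, dataF.isArr, dataG.isArr, isoFG, cmF, not_cmG⟩

end Pool.Agent.Results.MP_7f7c16_ag.TopNotComb
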